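import Pool.Agent.Y703.LA.BrsT
import Pool.Agent.Y19.QT.Fams

/-!
# A Brauer-Siegel formula for almost all quadratic twists

Let `E_d : y² = x³ + a d² x + b d³`, `d` squarefree, be the quadratic twists of
`E : y² = x³ + a x + b`. Let `W` be a global minimal equation of `E_d`, `L` its Hasse-Weil
`L`-function (all Euler factors included), `r` the rank, `Ω = ∫_{E_d(ℝ)} |dx/(2y + a₁x + a₃)|` the real
period, `Reg` the regulator, `S_d := L^{(r)}(E_d, 1) (#E_d(ℚ)_tors)² / (r! Ω Reg)`. The formula of Birch
and Swinnerton-Dyer says that `S_d = #Sha · Tam`.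

Let `log log X ≤ t ≤ c log X`, `R = t / log X`. For all squarefree `|d| ≤ X` but at most
`C X (log X)^A e^{-t}`: let `ρ` be the order of vanishing of `L` at `s = 1` and let `Z` be the multiset of
the other zeros of `L` with `|z - 1| ≤ R`. Then `ρ + |Z| ≤ C t` and, up to a factor `e^{± C t}`,
* `|L^{(ρ)}(E_d, 1)| / (ρ! Ω) = |d|^{1/2} R^{-ρ} ∏_{z ∈ Z} (|z - 1| / R)`;
* if `ρ = r` (the rank part of the conjecture of Birch and Swinnerton-Dyer), then
  `|S_d| Reg = |d|^{1/2} R^{-r} ∏_{z ∈ Z} (|z - 1| / R)`.

For `t = (A + B) log log X` the exceptional set has `O(X / (log X)^B)` elements and the formula holds up to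
a factor `(log X)^{O(1)}`; for `t = ε log X` it has `O(X^{1 - ε / 2})` elements and the formula holds up to a
factor `X^{O(ε)}`. So for 100% of the twists the value of `#Sha · Tam · Reg` predicted by the formula is
`|d|^{1/2 + o(1)}`, the exponent being that of the Brauer-Siegel analogy, except for the product of the
distances of the few zeros very near to `s = 1`.

Proof. Outside the exceptional set both `L` and `1/L` are at most `e^{O(t)}` at the point
`1 + K t / log X` (mollifier and quadratic large sieve, `Pool.Agent.Y703.QT12` and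
`Pool.Agent.Y703.QT8`), and `L` is at most `e^{O(t)}` in a disc of radius `20 K t / log X` around `1`.
Then a local factorisation with Jensen's and Harnack's inequalities, and two-sided bounds for the
period of the twists.
-/

set_option autoImplicit false

namespace Pool.Agent.Results.MP_4a9ea6_nt.BrauerSiegelTwists

open Pool.Agent.Y703.LA Pool.Agent.Y19.QT

/-- The Brauer-Siegel formula holds for all quadratic twists of `y² = x³ + a x + b`, `d` squarefree,
`|d| ≤ X`, except for at most `C X (log X)^A e^{-t}`, with the radius `t / log X` and up to a factor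
`e^{± C t}`, uniformly for `log log X ≤ t ≤ c log X`. -/
def AlmostAll (a b : ℤ) : Prop := ∃ (c C : ℝ) (A : ℕ), 0 < c ∧ ∀ (X : ℕ) (t : ℝ), 3 ≤ X →
  Real.log (Real.log X) ≤ t → t ≤ c * Real.log X →
  ({d : ℤ | |d| ≤ X ∧ Squarefree d ∧ ¬ BrauerSiegel a b (t / Real.log X) (C * t) d}.ncard : ℝ) ≤
    C * X * Real.log X ^ A * Real.exp (-t)

/-- **The Brauer-Siegel formula for almost all quadratic twists** of every elliptic curve with
`j`-invariant `0` or `1728` and of every quadratic twist of `X_0(11)` and `X_0(14)`. -/
theorem result (a b : ℤ) (h : Fam a b) : AlmostAll a b := brs_all h.disc h.data.1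

end Pool.Agent.Results.MP_4a9ea6_nt.BrauerSiegelTwists
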