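import Mathlib
import Pool.Agent.TH841.LS.Main6
import Pool.Agent.TH841.NO.Fin

/-!
# Almost all members of a family have a large Tate-Shafarevich group

`E : y² = x (x - A) (x - B)` and the curve `E' : y² = x³ + 2 (A + B) x² + (A - B)² x`, which is
2-isogenous to `E`, for the members of one-parameter families and for coprime pairs. For almost all
of them the rank is bounded and the 2-primary part of `Ш(E)` is small, and `Ш(E')` contains a
group `(ℤ/2)^k` with `k ≥ (κ - δ) log log`.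
-/

set_option autoImplicit false

namespace Pool.Agent.Results.MP_4a9ea6_nt.LargeShaAlmostAll

open Finset Polynomial

open Pool.Agent.TH841.SH.D (Sha ShaTor rk)

/-- the curve `y² = x (x - A) (x - B)` over `ℚ` -/
def E (A B : ℤ) : WeierstrassCurve ℚ := ⟨0, -((A : ℚ) + B), 0, (A : ℚ) * B, 0⟩

/-- the curve `y² = x³ + 2 (A + B) x² + (A - B)² x` over `ℚ` -/
def E' (A B : ℤ) : WeierstrassCurve ℚ := ⟨0, 2 * ((A : ℚ) + B), 0, ((A : ℚ) - B) ^ 2, 0⟩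

/-- `u_k = a_k ∏ f_{k,i}` -/
noncomputable def u {n : Fin 3 → ℕ} (a : Fin 3 → ℤ) (f : ∀ k : Fin 3, Fin (n k) → ℤ[X])
    (k : Fin 3) : ℤ[X] := C (a k) * ∏ i, f k i

/-- `D = c ∏ g_i` -/
noncomputable def D {m : ℕ} (c : ℤ) (g : Fin m → ℤ[X]) : ℤ[X] := C c * ∏ i, g i

/-- `v` is a square modulo `f` in `ℚ[t]` -/
def SqMod (f v : ℤ[X]) : Prop := ∃ q : ℚ[X], f.map (Int.castRingHom ℚ) ∣
  (q ^ 2 - v.map (Int.castRingHom ℚ))

/-- `- D u₁`, `- D u₀`, `D u₀` -/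
noncomputable def v {n : Fin 3 → ℕ} {m : ℕ} (a : Fin 3 → ℤ) (f : ∀ k : Fin 3, Fin (n k) → ℤ[X])
    (c : ℤ) (g : Fin m → ℤ[X]) : Fin 3 → ℤ[X] :=
  ![-(D c g * u a f 1), -(D c g * u a f 0), D c g * u a f 0]

open Classical in
/-- the constant `κ = n₀ + n₁ - (n₂ + s₂) / 2 + r / 2`, where `s₂` is the number of the factors of
`u₂` modulo which `D u₀` is a square, and `r` the number of the `g_i` modulo which `u₀ u₁` is not
a square -/
noncomputable def κ {n : Fin 3 → ℕ} {m : ℕ} (a : Fin 3 → ℤ) (f : ∀ k : Fin 3, Fin (n k) → ℤ[X])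
    (c : ℤ) (g : Fin m → ℤ[X]) : ℝ :=
  (n 0 : ℝ) + n 1 -
    ((n 2 : ℝ) + (univ.filter (fun i => SqMod (f 2 i) (D c g * u a f 0))).card) / 2 +
    ((univ.filter (fun i => ¬ SqMod (g i) (u a f 0 * u a f 1))).card : ℝ) / 2

open Classical in
/-- the balance condition: `2 n_k + s_k ≤ n₀ + n₁ + n₂` for all `k`, where `s_k` is the number of
the factors `f_{k,i}` modulo which `v_k` is a square -/
def Balanced {n : Fin 3 → ℕ} {m : ℕ} (a : Fin 3 → ℤ) (f : ∀ k : Fin 3, Fin (n k) → ℤ[X])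
    (c : ℤ) (g : Fin m → ℤ[X]) : Prop :=
  ∀ k, 2 * n k + (univ.filter (fun i => SqMod (f k i) (v a f c g k))).card ≤ n 0 + n 1 + n 2

/-- the conclusion for the pair `A, B`: the curves are nonsingular, all the `Ш(E)[2 ^ j]` are finite,
`2 ^ rank * #Ш(E)[2 ^ j] ^ (1 / j) ≤ 2 ^ R` for all `j ≥ 1`, and `Ш(E')` contains a group `(ℤ/2)^k`
with `k ≥ x` -/
def Good (A B : ℤ) (R : ℕ) (x : ℝ) : Prop :=
  A ≠ 0 ∧ B ≠ 0 ∧ A ≠ B ∧ (∀ j : ℕ, Finite (ShaTor (E A B) (2 ^ j))) ∧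
    (∀ j : ℕ, 1 ≤ j → (2 : ℝ) ^ rk (E A B) *
      (Nat.card (ShaTor (E A B) (2 ^ j)) : ℝ) ^ ((1 : ℝ) / j) ≤ 2 ^ R) ∧
    ∃ k : ℕ, x ≤ k ∧ ∃ φ : (Fin k → ZMod 2) →+ Sha (E' A B), Function.Injective φ

open Classical in
/-- **Theorem.** (1) Let `u_k = a_k ∏_{i < n_k} f_{k,i}`, `k = 0, 1, 2`, with `u₀ - u₁ = u₂`, and
`D = c ∏_{i < m} g_i`, where `a_k`, `c` are nonzero and the `n₀ + n₁ + n₂ + m` polynomials
`f_{k,i}`, `g_i` with integer coefficients are irreducible of positive degree and pairwise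
non-associated; let `w` be a nonzero polynomial; assume `2 n_k < n₀ + n₁ + n₂` for all `k`, or the
balance condition. For all `δ, ε > 0` and `L` there are `R` and `M₀` such that for `M ≥ M₀`,
`|N| ≤ M ^ L` and for all `N < t ≤ N + M` with at most `ε M` exceptions, with
`A = (D w² u₀)(t)`, `B = (D w² u₁)(t)`: `E : y² = x (x - A) (x - B)` is an elliptic curve,
`2 ^ rank * #Ш(E)[2 ^ j] ^ (1 / j) ≤ 2 ^ R` for all `j ≥ 1`, and for the 2-isogenous curve `E'` the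
group `Ш(E')` contains `(ℤ/2)^k` with `k ≥ (κ - δ) log log M`.
(2) For every nonzero `d` the same holds for `A = d x`, `B = d y` and the coprime pairs `(x, y)`,
`N₁ < x ≤ N₁ + X`, `N₂ < y ≤ N₂ + X` with at most `ε X²` exceptions, with `κ = 3 / 2`, for
`|N₁|, |N₂| ≤ X ^ L`, `X ≥ X₀`. -/
theorem result :
    (∀ (n : Fin 3 → ℕ) (m : ℕ) (a : Fin 3 → ℤ) (f : ∀ k : Fin 3, Fin (n k) → ℤ[X])
    (c : ℤ) (g : Fin m → ℤ[X]) (w : ℤ[X]) (_ : ∀ k, a k ≠ 0) (_ : c ≠ 0) (_ : w ≠ 0)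
    (_ : ∀ k i, Irreducible (f k i) ∧ 0 < (f k i).natDegree)
    (_ : ∀ i, Irreducible (g i) ∧ 0 < (g i).natDegree)
    (_ : ∀ k i l j, (⟨k, i⟩ : Σ k : Fin 3, Fin (n k)) ≠ ⟨l, j⟩ → ¬ Associated (f k i) (f l j))
    (_ : ∀ i j, i ≠ j → ¬ Associated (g i) (g j)) (_ : ∀ k i j, ¬ Associated (f k i) (g j))
    (_ : u a f 0 - u a f 1 = u a f 2)
    (_ : (∀ k, 2 * n k < n 0 + n 1 + n 2) ∨ Balanced a f c g)
    (δ ε : ℝ) (L : ℕ) (_ : 0 < δ) (_ : 0 < ε),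
    ∃ R M₀ : ℕ, ∀ (N : ℤ) (M : ℕ), M₀ ≤ M → |N| ≤ (M : ℤ) ^ L →
      (((Ioc N (N + (M : ℤ))).filter (fun t => ¬ Good ((D c g * w ^ 2 * u a f 0).eval t)
        ((D c g * w ^ 2 * u a f 1).eval t) R
        ((κ a f c g - δ) * Real.log (Real.log M)))).card : ℝ) ≤ ε * M) ∧
    (∀ d : ℤ, d ≠ 0 → ∀ (δ ε : ℝ) (L : ℕ), 0 < δ → 0 < ε →
    ∃ R X₀ : ℕ, ∀ (N₁ N₂ : ℤ) (X : ℕ), X₀ ≤ X → |N₁| ≤ (X : ℤ) ^ L → |N₂| ≤ (X : ℤ) ^ L →
      (((Ioc N₁ (N₁ + (X : ℤ)) ×ˢ Ioc N₂ (N₂ + (X : ℤ))).filter (fun t : ℤ × ℤ =>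
        IsCoprime t.1 t.2 ∧ ¬ Good (d * t.1) (d * t.2) R
        ((3 / 2 - δ) * Real.log (Real.log X)))).card : ℝ) ≤ ε * X ^ 2) := by
  refine ⟨?_, ?_⟩
  · intro n m a f c g w ha hc hw hf hg hff hgg hfg hu hb δ ε L hδ hε
    have hirr : Pool.Agent.TH841.PT.Irr (Pool.Agent.TH841.TR.allf g f) := by
      refine ⟨?_, ?_, ?_⟩
      · rintro (x | i)
        · exact (hf x.1 x.2).1
        · exact (hg i).1
      · rintro (x | i)
        · exact (hf x.1 x.2).2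
        · exact (hg i).2
      · rintro (x | i) (y | j) hxy
        · exact hff x.1 x.2 y.1 y.2 (fun h => hxy (congrArg Sum.inl h))
        · exact hfg x.1 x.2 j
        · exact fun h => hfg y.1 y.2 i h.symm
        · exact hgg i j (fun h => hxy (congrArg Sum.inr h))
    have hbal : (∀ k, 2 * n k < n 0 + n 1 + n 2) ∨
        Pool.Agent.TH841.TR.Bal (Pool.Agent.TH841.LS.DG c g) a f :=
      hb.imp_right fun hb => Pool.Agent.TH841.TR.bal_of (v := v a f c g) rfl rfl rfl fun k => hb k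
    obtain ⟨R, M1, h1⟩ := Pool.Agent.TH841.LS.large5
      (Pool.Agent.TH841.LS.CNTXf.cntx_of Pool.Agent.TH841.LS.TKXf.tkx)
      Pool.Agent.TH841.PM.tavz Pool.Agent.TH841.TR.tav3x a f c g w ha hc hw hirr hu hbal δ ε L
      hδ hε
    refine ⟨R + 1, M1, fun N M hM hN => le_trans ?_ (h1 N M hM hN)⟩
    refine Nat.cast_le.2 (card_le_card ?_)
    intro t ht
    rw [mem_filter] at ht ⊢
    exact ⟨ht.1, fun ht' => ht.2 (ht' _ _ rfl rfl)⟩
  · intro d hd δ ε L hδ hε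
    obtain ⟨R, X1, h1⟩ := Pool.Agent.TH841.LS.large6 Pool.Agent.TH841.LS.CNT2Xf.cnt2x
      (Pool.Agent.W307.FK.avgn_of Pool.Agent.W307.FK.expf) d hd δ ε L hδ hε
    refine ⟨R + 1, X1, fun N₁ N₂ X hX hN₁ hN₂ => le_trans ?_ (h1 N₁ N₂ X hX ?_ ?_)⟩
    · refine Nat.cast_le.2 ?_
      refine card_le_card_of_injOn (fun t : ℤ × ℤ => ((t.1 - N₁).toNat, (t.2 - N₂).toNat)) ?_ ?_
      · intro t ht
        rw [mem_coe, mem_filter, mem_product, mem_Ioc, mem_Ioc] at ht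
        obtain ⟨⟨⟨a1, a2⟩, a3, a4⟩, a5, a6⟩ := ht
        rw [mem_coe, mem_filter, mem_product, mem_Icc, mem_Icc]
        have b1 : N₁ + (((t.1 - N₁).toNat : ℕ) : ℤ) = t.1 := by
          rw [Int.toNat_of_nonneg (by omega)]
          ring
        have b2 : N₂ + (((t.2 - N₂).toNat : ℕ) : ℤ) = t.2 := by
          rw [Int.toNat_of_nonneg (by omega)]
          ring
        refine ⟨⟨⟨by simp only; omega, by simp only; omega⟩, by simp only; omega,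
          by simp only; omega⟩, ?_, ?_⟩
        · simp only [b1, b2]
          exact a5
        · intro h'
          simp only [b1, b2] at h'
          exact a6 (h' _ _ rfl rfl)
      · intro t ht t' ht' h
        rw [mem_coe, mem_filter, mem_product, mem_Ioc, mem_Ioc] at ht ht'
        simp only [Prod.mk.injEq] at h
        obtain ⟨⟨⟨a1, a2⟩, a3, a4⟩, -⟩ := ht
        obtain ⟨⟨⟨b1, b2⟩, b3, b4⟩, -⟩ := ht'
        obtain ⟨h4, h5⟩ := h
        refine Prod.ext ?_ ?_ <;> omega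
    · zify
      exact hN₁
    · zify
      exact hN₂

end Pool.Agent.Results.MP_4a9ea6_nt.LargeShaAlmostAll
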