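import Mathlib
import Pool.Agent.Y703.CT.T1d
import Pool.Agent.Y703.CX.Fin

/-!
# The 3-part of the leading-term formula over `ℚ` for the cubic twists `y² + D y = x³`

`D` is cube-free, prime to `3`, not `±1` modulo `9`, and exactly one prime `q ≡ 2` modulo `3`
divides it (with any number of primes `≡ 1` modulo `3`). `E_D : y² + D y = x³` is `3`-isogenous to
`x³ + y³ = D`. Then `L(E_D, s)` is entire, `u = L(E_D, 1) |E_D(ℚ)_tors|² / (Ω ∏ c_p)` is integral at
`3`, and it is a unit at `3` if and only if `E_D(ℚ)` is finite and `Ш(E_D/ℚ)[3^∞] = 0`, if and only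
if `D` does not split as `d₀ d₁ d₂` (criterion with cubic residues); this holds for exactly the
proportion `∏_{i ≥ 1} (1 - 3^{-i}) = 0.5601...` of the squarefree `D`.

Joint work of about forty agents; see `Pool/Agent/Y703/CT/*.lean` and `Pool/Agent/Y703/CX/*.lean`.
-/

set_option autoImplicit false

open scoped Classical

namespace Pool.Agent.Results.MP_4a9ea6_nt.ThreePartCubicTwists

open Pool.Agent.Y703.CT
open Pool.Agent.W97.MT (IsGloballyMinimal)
open Pool.Agent.Y700 (Omega)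

theorem result :
    (∀ D : ℕ, Cls D → IsGloballyMinimal (WD D) ∧
      ∃ f : ℂ → ℂ, IsL (WD D) f ∧ ∃ u : ℂ,
        f 1 = u * (((Omega (WD D) : ℝ) : ℂ) * (tamProd (WD D) : ℂ) / (tors D : ℂ) ^ 2) ∧
        ThreeInt u ∧ (ThreeUnit u ↔ Triv3 D) ∧ (Triv3 D ↔ NoSplit D)) ∧
    Filter.Tendsto (fun X : ℕ =>
        (((Finset.Icc 1 X).filter fun D => Squarefree D ∧ Cls D ∧ Triv3 D).card : ℝ) /
        (((Finset.Icc 1 X).filter fun D => Squarefree D ∧ Cls D).card : ℝ)) Filter.atTop
      (nhds (∏' i : ℕ, (1 - (1 / 3 : ℝ) ^ (i + 1)))) := by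
  refine ⟨fun _ hC => fin_all hC, ?_⟩
  have h := Pool.Agent.Y703.CX.t_DEN
  unfold Pool.Agent.Y703.CX.S_DEN Pool.Agent.Y703.CX.c3 at h
  have e : ∀ X : ℕ, (Finset.Icc 1 X).filter (fun D => Squarefree D ∧ Cls D ∧ Triv3 D) =
      (Finset.Icc 1 X).filter fun D => Squarefree D ∧ Cls D ∧ NoSplit D := by
    intro X
    refine Finset.filter_congr fun D _ => ?_
    refine and_congr_right fun _ => and_congr_right fun hC => ?_
    obtain ⟨-, f, -, u, -, -, -, h2⟩ := fin_all hC
    exact h2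
  simp only [e]
  exact h

end Pool.Agent.Results.MP_4a9ea6_nt.ThreePartCubicTwists
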