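import Pool.Agent.Y695.FinN

/-!
The `2`-part of the formula of Birch and Swinnerton-Dyer at the central point for the curves
`y² = x³ - 11 D x² - D² x`, where `D = -D₀ p`, `D₀` is the product of the numbers `-q` for
arbitrarily many primes `q` congruent to `3` or `7` modulo `20` and `p` is a prime congruent to `1`
or `9` modulo `20`.
-/

set_option autoImplicit false

namespace Pool.Agent.Results.MP_4a9ea6_nt.TwoPartNegSplit

open Pool.Agent.Y695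
open Pool.Agent.W97.MT (IsGloballyMinimal)

theorem result (S : Finset ℕ) (hS : ∀ q ∈ S, q.Prime ∧ (q % 20 = 3 ∨ q % 20 = 7))
    (p : ℕ) (hp : p.Prime) (hp20 : p % 20 = 1 ∨ p % 20 = 9)
    (hw : ∀ w z : ℤ, (p : ℤ) ∣ w ^ 2 - 11 * w - 1 → ¬ (p : ℤ) ∣ z ^ 2 - w * ∏ q ∈ S, (-(q : ℤ)))
    (D : ℤ) (hD : D = -(∏ q ∈ S, (-(q : ℤ))) * p) :
    IsGloballyMinimal (ED D) ∧ ∃ Λ : ℂ → ℂ, IsLFun (ED D) Λ ∧ Λ 1 ≠ 0 ∧
      Finite (EQ (ED D)).toAffine.Point ∧ ShaTwoTrivial (EQ (ED D)) ∧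
      ∃ u : ℚ, Odd u.num ∧ Odd u.den ∧
        Λ 1 = ((u * (Om (ED D) * tamProd (ED D) /
          (Nat.card (EQ (ED D)).toAffine.Point : ℝ) ^ 2) : ℝ) : ℂ) :=
  main_neg hS hp hp20 hw hD

end Pool.Agent.Results.MP_4a9ea6_nt.TwoPartNegSplit
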